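import Mathlib
import Pool.Agent.R437.LSeq

set_option autoImplicit false

/-!
# Integrality of power-sum ratios for `l`-sequences

Part (a) of Q1 is true: `P_{n,k}` and `R_{n,k}` are integers for all `l ≥ 2` and `n, k ≥ 1`.
Part (b) is false: `T_{10,5}` is not an integer (`l = 2`).

Proof of (a): `u_j` is a monic polynomial in `l` with simple roots. Let `x = a + 1/a` be a root of
`u_1 ⋯ u_n` and let `H` be the order of `a`. Then `u_j(x) = 0` iff `H ∣ 2 j`, while the tail sum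
`S_k(j,n)` vanishes at `x` if `H ∣ n + 1 - j` (full periods) or `H ∣ n + j` (antisymmetry); there
are at least as many `j ≤ n` of the second kind as of the first. So `∏ u_j` divides `∏ S_k(j,n)` in
`ℂ[l]`, hence in `ℤ[l]`. The roots of `S_1(1,n)` are simple as `u_n(y) u_{n+1}(y) = y S_1(y² - 2)`.
-/

open Finset

namespace Pool.Agent.Results.MP_0634a4_nt.PowerSumRatios

/-- the `l`-sequence: `u_0 = 0`, `u_1 = 1`, `u_m = l u_{m-1} - u_{m-2}` -/
def u (l : ℤ) : ℕ → ℤ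
  | 0 => 0
  | 1 => 1
  | (m + 2) => l * u l (m + 1) - u l m

/-- the tail sum `S_k(j,n) = ∑_{i=j}^n u_i^(2k-1)` -/
def S (l : ℤ) (k j n : ℕ) : ℤ := ∑ i ∈ Icc j n, u l i ^ (2 * k - 1)

/-- `P_{n,k} = ∏_{j=1}^n S_k(j,n) / u_j` -/
def P (l : ℤ) (n k : ℕ) : ℚ := ∏ j ∈ Icc 1 n, (S l k j n : ℚ) / (u l j : ℚ)

/-- `R_{n,k} = S_k(1,n) / S_1(1,n)` -/
def R (l : ℤ) (n k : ℕ) : ℚ := (S l k 1 n : ℚ) / (S l 1 1 n : ℚ)

/-- `T_{n,k} = (∑_{i=1}^n u_i^(3(4k-3))) / (∑_{i=1}^n u_i^3)` -/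
def T (l : ℤ) (n k : ℕ) : ℚ :=
  (∑ i ∈ Icc 1 n, (u l i : ℚ) ^ (3 * (4 * k - 3))) / ∑ i ∈ Icc 1 n, (u l i : ℚ) ^ 3

theorem u_eq (l : ℤ) (n : ℕ) : (Pool.Agent.R437.LSeq.U ℤ n).eval l = u l n := by
  induction n using Nat.twoStepInduction with
  | zero => simp [u]
  | one => simp [u]
  | more n ih1 ih2 =>
    rw [Pool.Agent.R437.LSeq.U_succ, Polynomial.eval_sub, Polynomial.eval_mul, Polynomial.eval_X,
      ih1, ih2, u]

theorem u_pos {l : ℤ} (hl : 2 ≤ l) (n : ℕ) : 0 ≤ u l n ∧ u l n < u l (n + 1) := by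
  induction n with
  | zero => simp [u]
  | succ n ih =>
    obtain ⟨h1, h2⟩ := ih
    refine ⟨by omega, ?_⟩
    have h3 : u l (n + 1 + 1) = l * u l (n + 1) - u l n := rfl
    rw [h3]
    nlinarith

theorem u_ne {l : ℤ} (hl : 2 ≤ l) {j : ℕ} (hj : 1 ≤ j) : u l j ≠ 0 := by
  obtain ⟨m, rfl⟩ : ∃ m, j = m + 1 := ⟨j - 1, by omega⟩
  have := u_pos hl m
  omega

/-- **Answer to Q1.** Part (a) holds: for every integer `l ≥ 2` and all `n, k ≥ 1` the numbers
`P_{n,k}` and `R_{n,k}` are integers. Part (b) fails: for `l = 2` the number `T_{10,5}` is not an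
integer. -/
theorem result :
    (∀ l : ℤ, 2 ≤ l → ∀ n k : ℕ, 1 ≤ n → 1 ≤ k →
      (∃ z : ℤ, P l n k = z) ∧ ∃ z : ℤ, R l n k = z) ∧
    ¬ ∃ z : ℤ, T 2 10 5 = z := by
  refine ⟨fun l hl n k hn hk => ⟨?_, ?_⟩, ?_⟩
  · have h := Pool.Agent.R437.LSeq.dvdZ n hk
    obtain ⟨q, hq⟩ := h
    have h2 := congrArg (Polynomial.eval l) hq
    simp only [Polynomial.eval_prod, Polynomial.eval_mul, Polynomial.eval_finsetSum,
      Polynomial.eval_pow, u_eq] at h2
    refine ⟨q.eval l, ?_⟩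
    unfold P
    rw [Finset.prod_div_distrib, div_eq_iff]
    · unfold S
      have h3 : ((∏ j ∈ Icc 1 n, ∑ i ∈ Icc j n, u l i ^ (2 * k - 1) : ℤ) : ℚ) =
          (((∏ j ∈ Icc 1 n, u l j) * q.eval l : ℤ) : ℚ) := by rw [h2]
      push_cast at h3 ⊢
      rw [h3, mul_comm]
    · rw [Finset.prod_ne_zero_iff]
      intro j hj
      exact_mod_cast u_ne hl (mem_Icc.1 hj).1
  · have h := Pool.Agent.R437.LSeq.dvdZ' hn hk
    obtain ⟨q, hq⟩ := h
    have h2 := congrArg (Polynomial.eval l) hq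
    simp only [Polynomial.eval_mul, Polynomial.eval_finsetSum, Polynomial.eval_pow, u_eq] at h2
    refine ⟨q.eval l, ?_⟩
    unfold R
    have h0 : S l 1 1 n ≠ 0 := by
      unfold S
      apply ne_of_gt
      apply Finset.sum_pos
      · intro i hi
        have h1 : 0 < u l i := by
          have h5 := u_ne hl (mem_Icc.1 hi).1
          have h6 := (u_pos hl i).1
          omega
        exact pow_pos h1 _
      · exact ⟨1, mem_Icc.2 ⟨le_rfl, hn⟩⟩
    rw [div_eq_iff (by exact_mod_cast h0)]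
    have h3 : S l k 1 n = q.eval l * S l 1 1 n := by
      unfold S
      rw [h2, mul_comm]
      simp
    exact_mod_cast h3
  · rintro ⟨z, hz⟩
    have hu : ∀ i : ℕ, u 2 i = i := by
      intro i
      induction i using Nat.twoStepInduction with
      | zero => rfl
      | one => rfl
      | more n ih1 ih2 =>
        have h3 : u 2 (n + 2) = 2 * u 2 (n + 1) - u 2 n := rfl
        rw [h3, ih1, ih2]
        push_cast
        ring
    unfold T at hz
    simp only [hu] at hz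
    rw [div_eq_iff (by norm_num [Finset.sum_Icc_succ_top])] at hz
    have h4 : (∑ i ∈ Icc 1 10, (i : ℤ) ^ 51) = z * ∑ i ∈ Icc 1 10, (i : ℤ) ^ 3 := by
      exact_mod_cast hz
    have h5 : (∑ i ∈ Icc 1 10, (i : ℤ) ^ 3) = 3025 := by decide +kernel
    have h6 : (∑ i ∈ Icc 1 10, (i : ℤ) ^ 51) % 3025 = 0 := by
      rw [h4, h5]
      exact Int.mul_emod_left _ _
    exact absurd h6 (by decide +kernel)

end Pool.Agent.Results.MP_0634a4_nt.PowerSumRatios
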